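import Pool.Agent.helper48.PR.SpecL

set_option autoImplicit false

namespace Pool.Agent.PR

open Matrix

private lemma LCZ_inj (q : ℕ) [Fact q.Prime] :
    Function.Injective (PadicInt.Coe.ringHom (p := q)) := by
  intro a b h
  exact Subtype.ext h

private lemma LCZ_map_inj (n q : ℕ) [Fact q.Prime] :
    Function.Injective (fun A : Matrix (Fin n) (Fin n) ℤ_[q] =>
      A.map (PadicInt.Coe.ringHom (p := q))) := by
  intro A B h
  ext i j
  have := congrFun (congrFun h i) j
  simp only [Matrix.map_apply] at this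
  rw [LCZ_inj q this]

private lemma LCZ_std (n q : ℕ) [Fact q.Prime] (γ : SLZ n) :
    (stdM ℤ_[q] γ).map (PadicInt.Coe.ringHom (p := q)) = stdM ℚ_[q] γ := by
  unfold stdM
  ext i j
  simp only [Matrix.map_apply]
  simp

private lemma LCZ_sdM (n q : ℕ) [Fact q.Prime] (s : Bool) (γ : SLZ n) :
    (sdM s ℤ_[q] γ).map (PadicInt.Coe.ringHom (p := q)) = sdM s ℚ_[q] γ := by
  unfold sdM
  cases s
  · simp only [Bool.false_eq_true, if_false]
    unfold duM
    rw [Matrix.transpose_map, LCZ_std]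
  · simp only [if_true]
    exact LCZ_std n q γ

private lemma LCZ_std_el (n : ℕ) (F : Type) [CommRing F] (i j : Fin n) (h : i ≠ j) :
    stdM F (el i j h 1) = 1 + Matrix.single i j (1 : F) := by
  unfold stdM
  rw [el_coe]
  ext k l
  simp only [Matrix.map_apply, Matrix.add_apply, Matrix.one_apply, Matrix.single_apply]
  split_ifs <;> first | (simp; done) | (simp; norm_num)

private lemma LCZ_du_el (n : ℕ) (F : Type) [CommRing F] (i j : Fin n) (h : i ≠ j) :
    duM F (el i j h 1) = 1 - Matrix.single j i (1 : F) := by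
  unfold duM
  rw [← el_neg]
  unfold stdM
  rw [el_coe]
  ext k l
  simp only [Matrix.transpose_apply, Matrix.map_apply, Matrix.add_apply, Matrix.sub_apply,
    Matrix.one_apply, Matrix.single_apply]
  by_cases h1 : k = l
  · subst h1
    by_cases h2 : i = k ∧ j = k
    · exact absurd (h2.1.trans h2.2.symm) h
    · have h3 : ¬(j = k ∧ i = k) := fun h4 => h2 ⟨h4.2, h4.1⟩
      simp [h2, h3]
  · have h1' : l ≠ k := fun h4 => h1 h4.symm
    by_cases h2 : i = l ∧ j = k
    · have h3 : j = k ∧ i = l := ⟨h2.2, h2.1⟩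
      simp [h1, h1', h2]
    · have h3 : ¬(j = k ∧ i = l) := fun h4 => h2 ⟨h4.2, h4.1⟩
      simp [h1, h1', h2, h3]

private lemma LCZ_main (hLLAT : LLAT_stmt) (n : ℕ) (hn : 3 ≤ n) (q : ℕ) [Fact q.Prime]
    (g : SLZ n →* GL (Fin n) ℤ_[q]) (x y : Matrix (Fin n) (Fin n) ℚ_[q]) (hxy : x * y = 1)
    (hyx : y * x = 1) (s : Bool)
    (h : ∀ γ, (g γ : Matrix (Fin n) (Fin n) ℤ_[q]).map (PadicInt.Coe.ringHom (p := q)) =
      x * sdM s ℚ_[q] γ * y) :
    ∃ (X Y : Matrix (Fin n) (Fin n) ℤ_[q]) (s : Bool), X * Y = 1 ∧ Y * X = 1 ∧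
      ∀ γ, (g γ : Matrix (Fin n) (Fin n) ℤ_[q]) = X * sdM s ℤ_[q] γ * Y := by
  have hone : (1 : Matrix (Fin n) (Fin n) ℤ_[q]).map (PadicInt.Coe.ringHom (p := q)) = 1 :=
    Matrix.map_one _ (map_zero _) (map_one _)
  obtain ⟨c, X, Y, hc, hXY, hYX, hX, hY⟩ := hLLAT n hn q x y hxy hyx (by
    intro i j hij
    cases s with
    | true =>
      refine ⟨(g (el i j hij 1) : Matrix (Fin n) (Fin n) ℤ_[q]) - 1, ?_⟩
      rw [Matrix.map_sub _ (map_sub _), hone, h]
      have e1 : sdM true ℚ_[q] (el i j hij 1) = 1 + Matrix.single i j (1 : ℚ_[q]) := by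
        unfold sdM
        rw [if_pos rfl]
        exact LCZ_std_el n _ i j hij
      rw [e1, mul_add, add_mul, mul_one, hxy]
      abel
    | false =>
      refine ⟨1 - (g (el j i hij.symm 1) : Matrix (Fin n) (Fin n) ℤ_[q]), ?_⟩
      rw [Matrix.map_sub _ (map_sub _), hone, h]
      have e1 : sdM false ℚ_[q] (el j i hij.symm 1) = 1 - Matrix.single i j (1 : ℚ_[q]) := by
        unfold sdM
        rw [if_neg (by simp)]
        exact LCZ_du_el n _ j i hij.symm
      rw [e1, mul_sub, sub_mul, mul_one, hxy]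
      abel)
  refine ⟨X, Y, s, hXY, hYX, fun γ => ?_⟩
  apply LCZ_map_inj n q
  show (g γ : Matrix (Fin n) (Fin n) ℤ_[q]).map _ = (X * sdM s ℤ_[q] γ * Y).map _
  rw [Matrix.map_mul, Matrix.map_mul, LCZ_sdM, hX, hY, h]
  rw [smul_mul_assoc, smul_mul_assoc, mul_smul_comm, smul_smul, mul_inv_cancel₀ hc, one_smul]

theorem LCZ (hCL : CL_stmt) (hLLAT : LLAT_stmt) : LCZ_stmt := by
  intro n hn q _ g hg
  let r : SLZ n →* Matrix (Fin n) (Fin n) ℚ_[q] :=
    { toFun := fun γ => qM (g γ)
      map_one' := by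
        rw [map_one]
        exact Matrix.map_one _ (map_zero _) (map_one _)
      map_mul' := by
        intro γ δ
        rw [map_mul]
        unfold qM
        rw [Units.val_mul, Matrix.map_mul] }
  have hr : (Set.range r).Infinite := by
    have h1 : Set.range r = (fun A : GL (Fin n) ℤ_[q] => qM A) '' Set.range g := by
      rw [← Set.range_comp]
      rfl
    rw [h1]
    apply hg.image
    intro A _ B _ h
    apply Units.ext
    exact LCZ_map_inj n q h
  obtain ⟨x, y, hxy, hyx, h | h⟩ := hCL n hn ℚ_[q] r hr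
  · exact LCZ_main hLLAT n hn q g x y hxy hyx true (by
      intro γ
      have := h γ
      unfold sdM
      rw [if_pos rfl]
      exact this)
  · exact LCZ_main hLLAT n hn q g x y hxy hyx false (by
      intro γ
      have := h γ
      unfold sdM
      rw [if_neg (by simp)]
      exact this)

end Pool.Agent.PR
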