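import Pool.Agent.helper48.PR.SpecT

/-!
# Project pr: TG: the normaliser of the centraliser of an element with irreducible cubic characteristic polynomial
-/

set_option autoImplicit false

namespace Pool.Agent.PR

open Matrix Polynomial

/-- the homomorphism from `ℚ[X]/(g)` given by a root of `g` -/
noncomputable def TG_lift {g : ℚ[X]} {A : Type} [Ring A] [Algebra ℚ A] (m : A) (h : aeval m g = 0) :
    AdjoinRoot g →ₐ[ℚ] A :=
  Ideal.Quotient.liftₐ (Ideal.span {g}) (aeval m) (by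
    intro a ha
    obtain ⟨b, rfl⟩ := Ideal.mem_span_singleton'.1 ha
    rw [map_mul, h, mul_zero])

theorem TG_lift_mk {g : ℚ[X]} {A : Type} [Ring A] [Algebra ℚ A] (m : A) (h : aeval m g = 0)
    (q : ℚ[X]) : TG_lift m h (AdjoinRoot.mk g q) = aeval m q := rfl

theorem TG_lift_root {g : ℚ[X]} {A : Type} [Ring A] [Algebra ℚ A] (m : A) (h : aeval m g = 0) :
    TG_lift m h (AdjoinRoot.root g) = m := by
  show TG_lift m h (AdjoinRoot.mk g X) = m
  rw [TG_lift_mk, aeval_X]

theorem TG_cay {F : Type} [Field F] [CharZero F] {M : Matrix (Fin 3) (Fin 3) F} {g : ℚ[X]}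
    (hM : M.charpoly = g.map (algebraMap ℚ F)) : aeval M g = 0 := by
  rw [← aeval_map_algebraMap F, ← hM, Matrix.aeval_self_charpoly]

theorem TG_deg {F : Type} [Field F] [CharZero F] {M : Matrix (Fin 3) (Fin 3) F} {g : ℚ[X]}
    (hM : M.charpoly = g.map (algebraMap ℚ F)) : g.natDegree = 3 := by
  have h1 := congrArg Polynomial.natDegree hM
  rw [Polynomial.natDegree_map, Matrix.charpoly_natDegree_eq_dim, Fintype.card_fin] at h1
  exact h1.symm

theorem TG (hTD : TD_stmt) : TG_stmt := by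
  intro F _ _ Λ _ ρ hρ hdet htr a g hg hch
  have : Fact (Irreducible g) := ⟨hg⟩
  set C := Subgroup.centralizer ({a} : Set Λ) with hC
  set N := Subgroup.normalizer (C : Set Λ) with hN
  let ψ : AdjoinRoot g →ₐ[ℚ] Matrix (Fin 3) (Fin 3) F := TG_lift (ρ a) (TG_cay hch)
  have hψ : Function.Injective ψ := ψ.toRingHom.injective
  have hroot : ψ (AdjoinRoot.root g) = ρ a := TG_lift_root _ _
  have haC : a ∈ C := Subgroup.mem_centralizer_singleton_iff.2 rfl
  have hmem : ∀ x : N, ∃ κ : AdjoinRoot g, ψ κ = ρ ((x : Λ) * a * (x : Λ)⁻¹) := by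
    intro x
    have h1 : (x : Λ) * a * (x : Λ)⁻¹ ∈ C := (Subgroup.mem_normalizer_iff.1 x.2 a).1 haC
    have h2 := Subgroup.mem_centralizer_singleton_iff.1 h1
    obtain ⟨q, hq⟩ := hTD 3 F (ρ a) (ρ ((x : Λ) * a * (x : Λ)⁻¹)) g hg hch
      (by rw [← map_mul, ← map_mul, h2]) (fun j => by
        obtain ⟨t, ht⟩ := htr ((x : Λ) * a * (x : Λ)⁻¹ * a ^ j)
        refine ⟨t, ?_⟩
        rw [← map_pow, ← map_mul, ht]
        push_cast; rfl)
    refine ⟨AdjoinRoot.mk g q, ?_⟩
    rw [hq, aeval_map_algebraMap]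
    exact TG_lift_mk _ _ _
  choose κ hκ using hmem
  have hinv : ∀ x : Λ, ρ x⁻¹ * ρ x = 1 := fun x => by rw [← map_mul, inv_mul_cancel, map_one]
  have hinv' : ∀ x : Λ, ρ x * ρ x⁻¹ = 1 := fun x => by rw [← map_mul, mul_inv_cancel, map_one]
  let cj : Λ → (Matrix (Fin 3) (Fin 3) F →ₐ[ℚ] Matrix (Fin 3) (Fin 3) F) := fun x =>
    AlgHom.ofLinearMap
      { toFun := fun m => ρ x * m * ρ x⁻¹
        map_add' := fun m m' => by rw [mul_add, add_mul]
        map_smul' := fun c m => by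
          rw [RingHom.id_apply, Algebra.mul_smul_comm, Algebra.smul_mul_assoc] }
      (by
        show ρ x * 1 * ρ x⁻¹ = 1
        rw [mul_one, hinv'])
      (by
        intro m m'
        show ρ x * (m * m') * ρ x⁻¹ = (ρ x * m * ρ x⁻¹) * (ρ x * m' * ρ x⁻¹)
        calc _ = ρ x * m * 1 * m' * ρ x⁻¹ := by rw [mul_one]; simp only [mul_assoc]
          _ = _ := by rw [← hinv x]; simp only [mul_assoc])
  have hcj : ∀ x m, cj x m = ρ x * m * ρ x⁻¹ := fun x m => rfl
  have hsig : ∀ x : N, ∃ σ : AdjoinRoot g →ₐ[ℚ] AdjoinRoot g,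
      ∀ k, ψ (σ k) = ρ (x : Λ) * ψ k * ρ (x : Λ)⁻¹ := by
    intro x
    have hz : aeval (κ x) g = 0 := by
      apply hψ
      have h1 : ρ ((x : Λ) * a * (x : Λ)⁻¹) = cj x (ρ a) := by
        rw [hcj, map_mul, map_mul]
      rw [← aeval_algHom_apply, hκ, h1, aeval_algHom_apply, TG_cay hch, map_zero, map_zero]
    refine ⟨TG_lift (κ x) hz, fun k => ?_⟩
    have h2 : ψ.comp (TG_lift (κ x) hz) = (cj x).comp ψ := by
      apply AdjoinRoot.algHom_ext
      show ψ (TG_lift (κ x) hz (AdjoinRoot.root g)) = cj x (ψ (AdjoinRoot.root g))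
      rw [TG_lift_root, hroot, hκ, hcj, map_mul, map_mul]
    exact congrArg (fun f => f k) h2
  choose σ hσ using hsig
  let Φ0 : N →* (AdjoinRoot g →ₐ[ℚ] AdjoinRoot g) :=
    { toFun := σ
      map_one' := by
        refine AlgHom.ext fun k => hψ ?_
        rw [hσ]
        show ρ 1 * ψ k * ρ (1 : Λ)⁻¹ = ψ k
        rw [inv_one, map_one, one_mul, mul_one]
      map_mul' := by
        intro x y
        refine AlgHom.ext fun k => hψ ?_
        show ψ (σ (x * y) k) = ψ (σ x (σ y k))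
        rw [hσ, hσ, hσ]
        show ρ ((x : Λ) * y) * ψ k * ρ ((x : Λ) * y)⁻¹ = _
        rw [_root_.mul_inv_rev, map_mul, map_mul]
        simp only [mul_assoc] }
  let Φ : N →* (AdjoinRoot g ≃ₐ[ℚ] AdjoinRoot g) :=
    (AlgEquiv.algHomUnitsEquiv ℚ (AdjoinRoot g)).toMonoidHom.comp Φ0.toHomUnits
  have hΦ : ∀ x k, Φ x k = σ x k := fun x k => rfl
  have hker : Φ.ker = C.subgroupOf N := by
    ext x
    rw [MonoidHom.mem_ker, Subgroup.mem_subgroupOf, hC, Subgroup.mem_centralizer_singleton_iff]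
    constructor
    · intro h
      have h1 : σ x (AdjoinRoot.root g) = AdjoinRoot.root g := by
        rw [← hΦ, h]; rfl
      have h2 := hσ x (AdjoinRoot.root g)
      rw [h1, hroot, ← map_mul, ← map_mul] at h2
      have h3 := hρ h2
      calc (x : Λ) * a = (x : Λ) * a * (x : Λ)⁻¹ * x := by group
        _ = a * x := by rw [← h3]
    · intro h
      have h1 : (σ x).comp (AlgHom.id ℚ _) = AlgHom.id ℚ _ := by
        apply AdjoinRoot.algHom_ext
        apply hψ
        show ψ (σ x (AdjoinRoot.root g)) = ψ (AdjoinRoot.root g)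
        rw [hσ, hroot, ← map_mul, ← map_mul, h, mul_assoc, mul_inv_cancel, mul_one]
      apply AlgEquiv.ext
      intro k
      rw [hΦ]
      exact congrArg (fun f => f k) h1
  rw [← hker, Subgroup.index_ker]
  have hg0 : g ≠ 0 := hg.ne_zero
  have hfr : Module.finrank ℚ (AdjoinRoot g) = 3 := by
    rw [(AdjoinRoot.powerBasis hg0).finrank, AdjoinRoot.powerBasis_dim, TG_deg hch]
  have : FiniteDimensional ℚ (AdjoinRoot g) := Module.finite_of_finrank_pos (by omega)
  have hdvd : Nat.card Φ.range ∣ 3 := by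
    rw [← IntermediateField.finrank_fixedField_eq_card, ← hfr]
    exact ⟨_, (Module.finrank_mul_finrank ℚ (IntermediateField.fixedField Φ.range)
      (AdjoinRoot g)).symm.trans (mul_comm _ _)⟩
  exact (Nat.dvd_prime Nat.prime_three).1 hdvd

end Pool.Agent.PR
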